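import Mathlib
import Pool.Agent.R855.MT.Loc
import Pool.Agent.W528.Tor.Defs

/-!
# Places with toric rank 2 mod 4: the conditions
-/

set_option autoImplicit false

namespace Pool.Agent.W2helper44.NR

open Module Pool.Agent.W522.U Pool.Agent.R855.MT
open Pool.Agent.W528.Tor (AltDual)

noncomputable section

variable {K X Γ : Type} [Field K] [AddCommGroup X] [Module K X] [Group Γ]

/-- The algebraic multiplicity of the eigenvalue `a` of `F` on the subspace `U`. -/
def mult (R : Representation K Γ X) (F : Γ) (U : Submodule K X) (a : K) : ℕ :=
  finrank K (Module.End.maxGenEigenspace (R F) a ⊓ U : Submodule K X)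

/-- `F` is a diagonalizable element that maps `γ - 1` to `χ F` times itself under conjugation, and
the eigenvalues of `F` are: `1`; elements `a` of weight `w a = 1 / 2`; and `χ F`, with eigenvectors
in the image of `γ - 1`.  Here the weight `w` is a homomorphism from the multiplicative group of `K`
to the rational numbers with `w (χ F) = 1`. -/
def IsFrobenius (R : Representation K Γ X) (χ : Γ →* K) (w : Additive Kˣ →+ ℚ) (γ F : Γ) : Prop :=
  R F * (R γ - 1) = χ F • ((R γ - 1) * R F) ∧
    ∃ (n : ℕ) (b : Basis (Fin n) K X) (a : Fin n → Kˣ) (c : Kˣ),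
      (c : K) = χ F ∧ w (Additive.ofMul c) = 1 ∧ (∀ i, R F (b i) = (a i : K) • b i) ∧
      ∀ i, a i = 1 ∨ w (Additive.ofMul (a i)) = 1 / 2 ∨
        (a i = c ∧ b i ∈ LinearMap.range (R γ - 1))

/-- Four times every common divisor of the defects on `U` of the local operators of square zero is
smaller than the dimension of `U`.  (This holds if there is a local operator of square zero whose
rank on `U` is at least one and smaller than a quarter of the dimension of `U`.) -/
def SmallDefects (R : Representation K Γ X) (χ : Γ →* K) (U : Submodule K X) : Prop :=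
  ∀ r, (∀ N d, IsLocal R χ N → N * N = 0 → IsDefect R χ U N d → r ∣ d) → 4 * r < finrank K U

/-- The number `d` is `2` modulo `4`, and there is no odd prime `p` such that `p` divides `d` and
`4 p` divides `n`. -/
def IsEvenPrime (d n : ℕ) : Prop :=
  d % 4 = 2 ∧ ∀ p : ℕ, p.Prime → p ≠ 2 → p ∣ d → ¬4 * p ∣ n

/-- Every strongly irreducible subspace `U` is self-dual with an alternating pairing, and

* some local operator `N` with `N ^ 2 = 0` has a defect `d` on `U` which is two or odd, or
* some local operator `N` with `N ^ 2 = 0` has a defect `d` on `U` with `d = 2` modulo `4` such that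
  there is no odd prime `p` with `p ∣ d` and `4 p ∣ dim U`, and four times each common divisor of
  the defects of local operators is smaller than the dimension of `U`, or
* there is an element `γ` of the group with `(γ - 1) ^ 2 = 0` for which the rank of `γ - 1` on `U` is
  `2` modulo `4`, and an element `F` as above that maps `U` to `U`, such that for every odd prime
  `p` which divides this rank, with `4 p` dividing the dimension of `U`, some eigenvalue of `F` on `U`
  has a multiplicity not divisible by `p`, and four times each common divisor of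
  the defects of local operators is smaller than the dimension of `U`, or some eigenvalue of
  weight `1 / 2` of `F` on `U` has multiplicity smaller than an eighth of it. -/
def HasEvenPlaces (R : Representation K Γ X) (χ : Γ →* K) : Prop :=
  ∀ U, SI R U → AltDual R χ U ∧
    ((∃ N, IsLocal R χ N ∧ N * N = 0 ∧ ∃ d, IsDefect R χ U N d ∧
        (d = 2 ∨ Odd d ∨ (IsEvenPrime d (finrank K U) ∧ SmallDefects R χ U))) ∨
      ∃ (γ F : Γ) (w : Additive Kˣ →+ ℚ), (R γ - 1) * (R γ - 1) = 0 ∧ IsFrobenius R χ w γ F ∧
        (∀ u ∈ U, R F u ∈ U) ∧ finrank K (U.map (R γ - 1)) % 4 = 2 ∧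
        (∀ p : ℕ, p.Prime → p ≠ 2 → p ∣ finrank K (U.map (R γ - 1)) → 4 * p ∣ finrank K U →
          ∃ a : K, ¬p ∣ mult R F U a) ∧
        (SmallDefects R χ U ∨
          ∃ a : Kˣ, w (Additive.ofMul a) = 1 / 2 ∧ 0 < mult R F U a ∧
            8 * mult R F U a < finrank K U))

end

end Pool.Agent.W2helper44.NR
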