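import Mathlib

/-!
# Project NR: Lie algebras with square-zero elements of rank 2 mod 4

Setting of `Pool.Agent.Y126.JP`: `𝔥` is a Lie algebra of symplectic operators on `V` in which the
weak Hodge elements act irreducibly.  If `𝔥` is not simple, `V` is a tensor product; `J` is the
second factor of the Lie algebra (the commutant in `𝔥` of an ideal), `S` a minimal `J`-stable
subspace.
-/

set_option autoImplicit false

namespace Pool.Agent.W2helper44.NR

open Module LinearMap

/-- `S` is a minimal nonzero subspace stable under `J`, and `V` is generated by the images of `S`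
under the operators that commute with `J`. -/
structure Iso {K V : Type} [Field K] [AddCommGroup V] [Module K V] (J : Submodule K (End K V))
    (S : Submodule K V) : Prop where
  ne : S ≠ ⊥
  stable : ∀ y ∈ J, ∀ s ∈ S, y s ∈ S
  minimal : ∀ T ≤ S, (∀ y ∈ J, ∀ s ∈ T, y s ∈ T) → T = ⊥ ∨ T = S
  span : ∀ v : V, v ∈ Submodule.span K
    {w : V | ∃ x : End K V, (∀ y ∈ J, x * y = y * x) ∧ ∃ s ∈ S, w = x s}

/-- PIECE ISO (pure algebra).  The dimensions of all `J`-stable subspaces are multiples of the
dimension of `S`, and there is a `J`-equivariant projection onto `S`.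

Sketch: let `A = Algebra.adjoin K (J : Set (End K V))`; `V` is an `A`-module (`Subalgebra` acts on
`V` through `Module.End`), `S` gives a simple `Submodule A V`.  For `x` in the commutant,
`s ↦ x s` is `A`-linear, so its image is zero or isomorphic to `S` (Schur); by `span`, `V` is the
supremum of these images, hence semisimple and isotypic of type `S`
(`Mathlib.RingTheory.SimpleModule.Isotypic`: `isotypicComponent`, `IsIsotypicOfType`,
`IsIsotypicOfType.linearEquiv_fun`); so is each `A`-submodule `W`, and `W ≃ₗ[A] (Fin n → S)`.  The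
projection comes from a complement of `S` as an `A`-submodule.  (Any elementary proof is fine.) -/
def P_ISO : Prop := ∀ (K V : Type) [Field K] [AddCommGroup V] [Module K V] [FiniteDimensional K V]
  (J : Submodule K (End K V)) (S : Submodule K V), Iso J S →
  (∀ W : Submodule K V, (∀ y ∈ J, ∀ w ∈ W, y w ∈ W) → finrank K S ∣ finrank K W) ∧
  ∃ π : End K V, (∀ y ∈ J, π * y = y * π) ∧ (∀ v, π v ∈ S) ∧ ∀ s ∈ S, π s = s

/-- PIECE SYM (pure algebra).  If `S` has dimension two then the rank of every skew operator `n`
that commutes with `J` is divisible by four.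

Sketch: an operator which is a polynomial in elements of `J` (e.g. `D`, `e f`, `f e`) and vanishes on
`S` vanishes on `V`, by `span`.  So `D` is not `± 1` on `S` (otherwise `D = ± 1` on `V`, and `D` skew
gives `2 ω = 0`, `ω = 0`, `V = 0`).  So `S = S⁺ ⊕ S⁻` with lines `S⁺ = K s₊`, `S⁻ = K s₋`.  For
`y ∈ J` the components `(1 + D) y (1 - D)` and `(1 - D) y (1 + D)` are in `J` (`D y D` is in `J`:
`Pool.Agent.W548.Odd.invol_eq`, `up_eq`, `dn_eq`).  As `S⁻` is not `J`-stable there is a component
`e = (1 + D) y (1 - D) ∈ J` with `e s₋ = a s₊`, `a ≠ 0`, `e s₊ = 0`; similarly `f ∈ J` with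
`f s₊ = b s₋`, `b ≠ 0`, `f s₋ = 0`.  After scaling `f e = 1` on `V⁻ = ker (D + 1)` and `e f = 1` on
`V⁺ = ker (D - 1)` (they hold on `S`: use operators `f e (1 - D) - (1 - D)` etc.).
Let `γ (u, v) = ω (n u) v`, a symmetric form (`n` is skew for the alternating form `ω`) with kernel
`ker n`, and `η (u, v) = ω (n (e u)) v` on `V⁻`: it is alternating, since
`ω (n e u) v = - ω (e u) (n v) = ω u (e n v) = ω u (n e v) = - ω (n u) (e v)` and `γ` is symmetric.
Its kernel in `V⁻` is `{u ∈ V⁻ | n e u = 0} = V⁻ ∩ ker n` (`ω` pairs `V⁺` with `V⁻` perfectly, as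
`D` is skew; `n e u ∈ V⁺`; and `n e u = e n u`, `e` injective on `V⁻`).  So the rank of `n` on `V⁻`
is even (rank of an alternating form); the rank of `n` on `V⁺` is the same (`e` is an isomorphism
`V⁻ → V⁺` commuting with `n`), so the rank of `n` is twice an even number. -/
def P_SYM : Prop := ∀ (K V : Type) [Field K] [CharZero K] [AddCommGroup V] [Module K V]
  [FiniteDimensional K V] (ω : V →ₗ[K] V →ₗ[K] K) (J : Submodule K (End K V)) (S : Submodule K V)
  (D n : End K V), Iso J S → finrank K S = 2 →
  (∀ v, ω v v = 0) → (∀ u, (∀ v, ω u v = 0) → u = 0) →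
  (∀ y ∈ J, ∀ z ∈ J, y * z - z * y ∈ J) → (∀ y ∈ J, ∀ a b, ω (y a) b + ω a (y b) = 0) →
  D ∈ J → D * D = 1 → (∀ a b, ω (n a) b + ω a (n b) = 0) → (∀ y ∈ J, n * y = y * n) →
  4 ∣ finrank K (range n)

end Pool.Agent.W2helper44.NR
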