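import Mathlib
import Pool.Agent.W2helper44.NR.Stm
import Pool.Agent.Y126.JP.Small

/-!
# Project NR: the piece that uses the engine
-/

set_option autoImplicit false

namespace Pool.Agent.W2helper44.NR

open Module LinearMap Pool.Agent.W548.Odd Pool.Agent.Y91.JP Pool.Agent.Y126.JP

/-- PIECE SPAN (engine `Y126.JP`, `Y91.JP`).  For an involution `E` of `𝔥` the elements `J` of `𝔥`
that commute with the ideal generated by `E` have a minimal stable subspace `S` as in `Iso`.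

Sketch: `S` is a nonzero `J`-stable subspace of the smallest dimension.  Let `T` be the span in `Iso`.
It is stable under `J` and under everything that commutes with `J`, in particular under the ideal
`I = gn 𝔥 E` (elements of `cen 𝔥 I` commute with `I` by definition).  If `X ∈ 𝔥`, `X * X = 1 / 4`
then `D = 2 X` has `D * D = 1` and `invol_dich (setup ..) (scal ..) (gn_idl ..)` gives `D ∈ I` or
`D ∈ cen 𝔥 I = J`; so `T` is stable under `X`, and `hirr` gives `T = ⊥` or `T = ⊤`; `S ≤ T`. -/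
def P_SPAN : Prop := ∀ (K V : Type) [Field K] [CharZero K] [IsAlgClosed K] [AddCommGroup V]
  [Module K V] [FiniteDimensional K V] (ω : V →ₗ[K] V →ₗ[K] K) (𝔥 : Submodule K (End K V)),
  (∀ X ∈ 𝔥, ∀ Y ∈ 𝔥, X * Y - Y * X ∈ 𝔥) →
  (∀ y ∈ 𝔥, ∀ a b, ω (y a) b + ω a (y b) = 0) →
  (∀ W : Submodule K V, (∀ X ∈ 𝔥, X * X = (1 / 4 : K) • 1 → ∀ u ∈ W, X u ∈ W) →
    W = ⊥ ∨ W = ⊤) →
  (∀ u, (∀ v, ω u v = 0) → u = 0) → (∀ w, (∀ v, ω v w = 0) → w = 0) →
  ∀ E ∈ 𝔥, E * E = 1 → (∃ v : V, v ≠ 0) → ∃ S, Iso (cen 𝔥 (gn 𝔥 E)) S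

end Pool.Agent.W2helper44.NR
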