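import Mathlib
import Pool.Agent.W2helper44.NR.Stm1

/-!
# Square-zero elements of rank 2 mod 4 and tensor decompositions
-/

set_option autoImplicit false
set_option linter.unusedSectionVars false

namespace Pool.Agent.W2helper44.NR

open Module LinearMap Pool.Agent.W548.Odd Pool.Agent.Y91.JP Pool.Agent.Y126.JP

noncomputable section

variable {K : Type} [Field K] [CharZero K] {V : Type} [AddCommGroup V] [Module K V]
  [FiniteDimensional K V] {ω : V →ₗ[K] V →ₗ[K] K} {𝔥 : Submodule K (End K V)}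
  (hbr : ∀ X ∈ 𝔥, ∀ Y ∈ 𝔥, X * Y - Y * X ∈ 𝔥)
  (hsp : ∀ y ∈ 𝔥, ∀ a b, ω (y a) b + ω a (y b) = 0)
  (hirr : ∀ W : Submodule K V, (∀ X ∈ 𝔥, X * X = (1 / 4 : K) • 1 → ∀ u ∈ W, X u ∈ W) →
    W = ⊥ ∨ W = ⊤)
  (halt : ∀ v, ω v v = 0) (hndl : ∀ u, (∀ v, ω u v = 0) → u = 0)
  (hndr : ∀ w, (∀ v, ω v w = 0) → w = 0)

/-- The generalized eigenspace of a projection. -/
theorem mge_proj {π : End K V} {S : Submodule K V} (h2 : ∀ v, π v ∈ S) (h3 : ∀ s ∈ S, π s = s) :
    π.maxGenEigenspace 1 = S := by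
  apply le_antisymm
  · intro w hw
    obtain ⟨k, hk⟩ := (Module.End.mem_maxGenEigenspace _ _ _).1 hw
    have key : ∀ k : ℕ, ∀ v, ((π - (1 : K) • (1 : End K V)) ^ k) v = 0 → v ∈ S := by
      intro k
      induction k with
      | zero =>
        intro v hv
        rw [pow_zero] at hv
        have hv' : v = 0 := hv
        rw [hv']
        exact S.zero_mem
      | succ k ih =>
        intro v hv
        rw [pow_succ, Module.End.mul_apply] at hv
        have h1 := ih _ hv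
        rw [LinearMap.sub_apply, one_smul, Module.End.one_apply] at h1
        have h4 : v = π v - (π v - v) := by abel
        rw [h4]
        exact S.sub_mem (h2 v) h1
    exact key k w hk
  · intro w hw
    rw [Module.End.mem_maxGenEigenspace]
    refine ⟨1, ?_⟩
    rw [pow_one, LinearMap.sub_apply, one_smul, Module.End.one_apply, h3 w hw, sub_self]

/-- An involution in an ideal has eigenspaces of the same dimension. -/
theorem half_dim {G I : Submodule K (End K V)} {st : End K V →ₗ[K] End K V} (h : Setup G st)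
    (hs : Scal G) (hI : IsIdl G I) {E : End K V} (hE : E ∈ I) (hE2 : E * E = 1) :
    2 * rk ((1 / 2 : K) • (1 + E)) = finrank K V := by
  have hDe : trace K V E = 0 := by
    have h1 := invol_br h hs hI hE hE2
    clear hE2 hE
    induction h1 using Submodule.span_induction with
    | mem x hx =>
      obtain ⟨a, -, b, hb, rfl⟩ := hx
      rw [map_sub, LinearMap.trace_mul_comm K b, sub_self]
    | zero => rw [map_zero]
    | add a b _ _ ha hb => rw [map_add, ha, hb, add_zero]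
    | smul t a _ ha => rw [map_smul, ha, smul_zero]
  have hqq : ((1 / 2 : K) • (1 + E)) * ((1 / 2 : K) • (1 + E)) = (1 / 2 : K) • (1 + E) := by
    have e1 : (1 + E) * (1 + E) = (2 : K) • (1 + E) := by
      calc (1 + E) * (1 + E) = 1 + E + E + E * E := by noncomm_ring
      _ = (2 : K) • (1 + E) := by
        rw [hE2, two_smul]
        abel
    rw [smul_mul_assoc, mul_smul_comm, e1, smul_smul, smul_smul]
    norm_num
  have htq : trace K V ((1 / 2 : K) • (1 + E)) = (1 / 2 : K) * (finrank K V : K) := by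
    rw [map_smul, map_add, hDe, add_zero, smul_eq_mul, LinearMap.trace_one]
  rw [Pool.Agent.Y91.JP.trace_idem hqq] at htq
  have h2 : ((2 * rk ((1 / 2 : K) • (1 + E)) : ℕ) : K) = (finrank K V : ℕ) := by
    push_cast
    rw [htq]
    ring
  exact_mod_cast h2

include hbr hsp hirr halt hndl hndr in
/-- **Tensor decompositions.**  If the Lie algebra is not generated, as an ideal, by one of its
involutions, there is an even number `b` that divides the rank of `n`, half the dimension of `V`, and the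
multiplicities of the eigenvalues of all normalizing operators that are scalars on the range of `n`;
and if `b = 2` the rank of `n` is divisible by four. -/
theorem even_structure [IsAlgClosed K] (hISO : P_ISO) (hSYM : P_SYM) (hSPAN : P_SPAN)
    {n : End K V} (hn : n ∈ 𝔥) (hn2 : n * n = 0) (hn0 : n ≠ 0) {D₀ : End K V} (hD₀ : D₀ ∈ 𝔥)
    (hD₀2 : D₀ * D₀ = 1) (hns : ¬𝔥 ≤ gn 𝔥 D₀) :
    ∃ b : ℕ, b ≠ 0 ∧ Even b ∧ b ∣ rk n ∧ 2 * b ∣ finrank K V ∧ (b = 2 → 4 ∣ rk n) ∧
      ∀ (F F' : End K V) (c : K), F * F' = 1 → F' * F = 1 → (∀ y ∈ 𝔥, F * y * F' ∈ 𝔥) →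
        (∀ y ∈ 𝔥, F' * y * F ∈ 𝔥) → F * n = c • n →
        ∀ a, b ∣ finrank K (F.maxGenEigenspace a) := by
  have h := setup hbr hsp hirr hndl hndr
  have hs := scal hirr
  obtain ⟨E, hE, hE2, hEn⟩ : ∃ E ∈ 𝔥, E * E = 1 ∧ E * n ≠ n * E := by
    by_contra hcon
    push Not at hcon
    obtain ⟨s, hs'⟩ := hs n (comm_of_invol h hcon)
    have h1 : (s * s) • (1 : End K V) = 0 := by
      have h2 : n * n = (s * s) • (1 : End K V) := by
        rw [hs', smul_mul_assoc, mul_smul_comm, one_mul, smul_smul]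
      rw [← h2, hn2]
    rcases smul_eq_zero.1 h1 with h2 | h2
    · apply hn0
      rw [hs', mul_self_eq_zero.1 h2, zero_smul]
    · apply hn0
      rw [← mul_one n, h2, mul_zero]
  have hI := gn_idl h hE
  have hnI : n ∈ gn 𝔥 E := sq_mem h hs hI mem_gn hE2 hn hn2 hEn
  have hgn : ¬𝔥 ≤ gn 𝔥 E := by
    intro hgn
    apply hns
    have hJ := gn_idl h hD₀
    rcases invol_dich h hs hJ hE hE2 with h1 | h1
    · exact hgn.trans (gn_le hJ h1)
    · exfalso
      have h2 : 𝔥 ≤ cen 𝔥 (gn 𝔥 D₀) := hgn.trans (gn_le (cen_idl h hJ) h1)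
      have h3 : D₀ = 0 := central_zero h hs hD₀ hD₀2 hD₀ fun z hz =>
        ((h2 hz).2 D₀ mem_gn).symm
      apply hn0
      rw [← mul_one n, ← hD₀2, h3, mul_zero, mul_zero]
  obtain ⟨D', hD', hD'2⟩ := exists_invol_cen h hs hE hgn
  obtain ⟨v, hv⟩ : ∃ v : V, v ≠ 0 := by
    by_contra hcon
    push Not at hcon
    exact hn0 (LinearMap.ext fun v => by rw [hcon (n v)]; rfl)
  obtain ⟨S, hS⟩ := hSPAN K V ω 𝔥 hbr hsp hirr hndl hndr E hE hE2 ⟨v, hv⟩
  obtain ⟨hdvd, π, hπ1, hπ2, hπ3⟩ := hISO K V _ S hS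
  have hJi := cen_idl h hI
  refine ⟨finrank K S, ?_, ?_, ?_, ?_, ?_, ?_⟩
  · intro h0
    exact hS.ne (Submodule.finrank_eq_zero.1 h0)
  · have h1 := even_mult h hs hJi hD' hD'2 (y := π) (fun z hz => hπ1 z hz) 1
    rwa [mge_proj hπ2 hπ3] at h1
  · refine hdvd (LinearMap.range n) ?_
    rintro y hy _ ⟨w, rfl⟩
    have h1 : y (n w) = n (y w) := LinearMap.congr_fun (hy.2 n hnI) w
    rw [h1]
    exact ⟨y w, rfl⟩
  · rw [← half_dim h hs hI mem_gn hE2]
    refine mul_dvd_mul_left 2 (hdvd (LinearMap.range ((1 / 2 : K) • (1 + E))) ?_)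
    rintro y hy _ ⟨w, rfl⟩
    have h1 : y (E w) = E (y w) := LinearMap.congr_fun (hy.2 E mem_gn) w
    refine ⟨y w, ?_⟩
    rw [LinearMap.smul_apply, LinearMap.smul_apply, LinearMap.add_apply, LinearMap.add_apply,
      Module.End.one_apply, Module.End.one_apply, map_smul, map_add, h1]
  · intro hb
    exact hSYM K V ω _ S D' n hS hb halt hndl (fun y hy z hz => hJi.br y (hJi.le hy) z hz)
      (fun y hy => hsp y (hJi.le hy)) hD' hD'2 (hsp n hn) fun y hy => (hy.2 n hnI).symm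
  · intro F F' c hFF hFF' hFG hFG' hFn a
    refine hdvd _ fun y hy w hw => ?_
    have h1 : F * y = y * F := comm_cen h hs hFF hFF' hFG hFG' hE hE2 hnI hn2 hn0 hFn hy
    exact Module.End.mapsTo_maxGenEigenspace_of_comm (show Commute F y from h1) a hw

include hbr hsp hirr halt hndl hndr in
/-- **Simplicity from square-zero elements of rank 2 mod 4.** -/
theorem simple_of_even [IsAlgClosed K] (hISO : P_ISO) (hSYM : P_SYM) (hSPAN : P_SPAN)
    {n : End K V} (hn : n ∈ 𝔥) (hn2 : n * n = 0) (hrk : rk n % 4 = 2)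
    (hp : ∀ p : ℕ, p.Prime → p ≠ 2 → p ∣ rk n → 4 * p ∣ finrank K V →
      ∃ (F F' : End K V) (c a : K), F * F' = 1 ∧ F' * F = 1 ∧ (∀ y ∈ 𝔥, F * y * F' ∈ 𝔥) ∧
        (∀ y ∈ 𝔥, F' * y * F ∈ 𝔥) ∧ F * n = c • n ∧ ¬p ∣ finrank K (F.maxGenEigenspace a))
    {D : End K V} (hD : D ∈ 𝔥) (hD2 : D * D = 1) : 𝔥 ≤ gn 𝔥 D := by
  by_contra hns
  have hn0 : n ≠ 0 := by
    rintro rfl
    have h1 : rk (0 : End K V) = 0 := by
      unfold rk
      rw [LinearMap.range_zero, finrank_bot]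
    rw [h1] at hrk
    omega
  obtain ⟨b, hb0, hbe, hbn, hbV, hb2, hbF⟩ :=
    even_structure hbr hsp hirr halt hndl hndr hISO hSYM hSPAN hn hn2 hn0 hD hD2 hns
  obtain ⟨m, hm⟩ := hbe
  have hm2 : ¬2 ∣ m := by
    rintro ⟨k, hk⟩
    obtain ⟨l, hl⟩ := hbn
    have h1 : rk n = 4 * (k * l) := by
      rw [hl, hm, hk]
      ring
    omega
  have hm1 : m ≠ 1 := by
    intro h1
    have h2 := hb2 (by omega)
    omega
  have hpr := Nat.minFac_prime hm1
  have hpm := Nat.minFac_dvd m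
  have hp2 : m.minFac ≠ 2 := by
    intro h1
    rw [h1] at hpm
    exact hm2 hpm
  have hpb : m.minFac ∣ b := by
    rw [hm]
    exact Dvd.dvd.trans hpm ⟨2, by ring⟩
  have hpV : 4 * m.minFac ∣ 2 * b := by
    obtain ⟨k, hk⟩ := hpm
    refine ⟨k, ?_⟩
    calc 2 * b = 4 * m := by rw [hm]; ring
    _ = 4 * (m.minFac * k) := congrArg (4 * ·) hk
    _ = 4 * m.minFac * k := by ring
  obtain ⟨F, F', c, a, h1, h2, h3, h4, h5, h6⟩ := hp m.minFac hpr hp2 (hpb.trans hbn)
    (hpV.trans hbV)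
  exact h6 (hpb.trans (hbF F F' c h1 h2 h3 h4 h5 a))

end

end Pool.Agent.W2helper44.NR
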