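import Mathlib
import Pool.Agent.W2helper44.NR.Struct
import Pool.Agent.R855.MT.QF
import Pool.Agent.Y144.QF.JGlob

/-!
# Defects 2 mod 4 of square-zero elements
-/

set_option autoImplicit false
set_option linter.unusedSectionVars false
set_option linter.unusedSimpArgs false

namespace Pool.Agent.W2helper44.NR

open Module Pool.Agent.H204R3.SP Pool.Agent.H204R3.GP Pool.Agent.W522.U Pool.Agent.W529.Ta
open Pool.Agent.W528.Odd Pool.Agent.Y126.OT Pool.Agent.TH118.CR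
open Pool.Agent.W528.Tor (AltDual)
open Pool.Agent.Y126.Toric (mult_res)
open Pool.Agent.Y126.JP Pool.Agent.Y144.QF

noncomputable section

variable {K : Type} [Field K] [CharZero K] [IsAlgClosed K] {X : Type} [AddCommGroup X] [Module K X]
  [FiniteDimensional K X] {Γ : Type} [Group Γ] {R : Representation K Γ X} {χ : Γ →* K}
  {ω : X →ₗ[K] X →ₗ[K] K} {L : Submodule K (Module.End K X)}
  (hL : IsLie ω R L) (hnd : ∀ u, (∀ v, ω u v = 0) → u = 0)
  (hωR : ∀ g u v, ω (R g u) (R g v) = χ g * ω u v) (hss : HasProj R) {U : Submodule K X}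
  (hU : SI R U)

include hL hnd hωR hss hU in
/-- From operators of rank one in the restriction of the Lie algebra to `U` to rank one operators
of square zero. -/
theorem one_of_res (halt : AltDual R χ U) {N : Module.End K X} (hN : N ∈ L)
    (hN2 : N * N = 0) (hN0 : U.map N ≠ ⊥)
    (H : ∀ om : U →ₗ[K] U →ₗ[K] K, (∀ v, om v v = 0) → (∀ u, (∀ v, om u v = 0) → u = 0) →
      (∀ u, (∀ v, om v u = 0) → u = 0) →
      (∀ Y ∈ resL L U, ∀ u w, om (Y u) w + om u (Y w) = 0) → ∃ e ∈ resL L U, rk e = 1) :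
    ∃ e ∈ L, e * e = 0 ∧ finrank K (U.map e) = 1 := by
  obtain ⟨Δ₁, hΔ₁, hUΔ₁⟩ := id hU.2.1
  obtain ⟨Δ₂, hΔ₂, B, hB0, hBalt, hB⟩ := id halt
  obtain ⟨Δ, hΔd⟩ : ∃ Δ, Δ = Δ₁ ⊓ Δ₂ := ⟨_, rfl⟩
  have hΔ : Δ.FiniteIndex := by rw [hΔd]; infer_instance
  have hUΔ : ∀ g ∈ Δ, ∀ u ∈ U, R g u ∈ U := fun g hg => hUΔ₁ g (by rw [hΔd] at hg; exact hg.1)
  have hBΔ : ∀ g ∈ Δ, ∀ u ∈ U, ∀ v ∈ U, B (R g u) (R g v) = χ g * B u v :=
    fun g hg => hB g (by rw [hΔd] at hg; exact hg.2)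
  obtain ⟨x, hx, hx0⟩ := exists_ne hN0
  -- the form on `U`
  obtain ⟨om, hom⟩ : ∃ om : U →ₗ[K] U →ₗ[K] K, om = B.compl₁₂ U.subtype U.subtype := ⟨_, rfl⟩
  have hom' : ∀ u v : U, om u v = B u v := fun u v => by rw [hom]; rfl
  have halt' : ∀ v, om v v = 0 := fun v => by rw [hom']; exact hBalt v v.2
  have hndl : ∀ u, (∀ v, om u v = 0) → u = 0 := by
    intro u hu
    apply Subtype.ext
    exact du_left hU hU.2.1 hΔ hB0 hBΔ u u.2 (fun v hv => by
      have := hu ⟨v, hv⟩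
      rwa [hom'] at this)
  have hanti := alt_anti halt'
  have hndr : ∀ u, (∀ v, om v u = 0) → u = 0 := fun u hu => hndl u fun v => by
    rw [hanti, hu, neg_zero]
  have hsim : ∀ (g : Δ) u v, om (resR R Δ U hUΔ g u) (resR R Δ U hUΔ g v) =
      (χ.comp Δ.subtype) g * om u v := by
    intro g u v
    rw [hom', hom']
    exact hBΔ g.1 g.2 u u.2 v v.2
  have hsp : ∀ Y ∈ resL L U, ∀ u w, om (Y u) w + om u (Y w) = 0 := by
    rintro Y ⟨y, hy, hYy⟩ u w
    rw [hom', hom', hYy, hYy]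
    exact hL.skewB hnd hωR hss hU.2.1 hΔ B hBΔ hy u u.2 w w.2
  obtain ⟨e, he, hr⟩ := H om halt' hndl hndr hsp
  have hall : ∀ u v, SS om u v ∈ resL L U :=
    all_of_rank_one (resR R Δ U hUΔ) (χ.comp Δ.subtype) (sIrr_res hU Δ hΔ hUΔ) hL.resL_br
        (hL.resL_conj Δ hUΔ) om halt' hndr hsim hsp he hr
  obtain ⟨v, hv⟩ : ∃ v : U, v ≠ 0 := by
    refine ⟨⟨x, hx⟩, fun h => hx0 ?_⟩
    have h1 : x = 0 := congrArg Subtype.val h
    rw [h1, map_zero]
  obtain ⟨w, hw⟩ : ∃ w, om v w ≠ 0 := by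
    by_contra hcon
    push Not at hcon
    exact hv (hndl v hcon)
  refine one_of_rank_one hL hnd hωR hss hU hN hN2 hN0 (hall v v)
    (Pool.Agent.W528.Tor.SS_sq_zero om halt' (halt' v)) ?_
  have h1 : LinearMap.range (SS om v v) = Submodule.span K {v} := by
    apply le_antisymm
    · rintro _ ⟨u, rfl⟩
      rw [SS_apply]
      exact Submodule.add_mem _ (Submodule.smul_mem _ _ (Submodule.mem_span_singleton_self v))
        (Submodule.smul_mem _ _ (Submodule.mem_span_singleton_self v))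
    · rw [Submodule.span_singleton_le_iff_mem]
      refine ⟨(2 * om v w)⁻¹ • w, ?_⟩
      rw [map_smul, SS_apply, ← add_smul, smul_smul]
      have h2 : (2 * om v w)⁻¹ * (om v w + om v w) = 1 := by
        rw [← two_mul]
        exact inv_mul_cancel₀ (mul_ne_zero two_ne_zero hw)
      rw [h2, one_smul]
  rw [rk, h1]
  exact finrank_span_singleton hv

include hL hnd hωR hss hU in
/-- **Defects 2 mod 4.** -/
theorem one_of_even (hISO : P_ISO) (hSYM : P_SYM) (hSPAN : P_SPAN) (halt : AltDual R χ U)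
    (hP : HodgeGen R L) {N : Module.End K X} (hN : N ∈ L)
    (hN2 : N * N = 0) (hN0 : U.map N ≠ ⊥) {n : Module.End K U} (hn : n ∈ resL L U)
    (hn2 : n * n = 0) {d : ℕ} (hnd' : rk n = d) (hd4 : d % 4 = 2)
    (hp : ∀ p : ℕ, p.Prime → p ≠ 2 → p ∣ d → ¬4 * p ∣ finrank K U)
    (hsmall : ∀ r, (∀ n' ∈ resL L U, n' * n' = 0 → r ∣ rk n') → 4 * r < finrank K U) :
    ∃ e ∈ L, e * e = 0 ∧ finrank K (U.map e) = 1 := by
  refine one_of_res hL hnd hωR hss hU halt hN hN2 hN0 fun om halt' hndl hndr hsp => ?_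
  have hirr : ∀ W : Submodule K U, (∀ Y ∈ resL L U, Y * Y = (1 / 4 : K) • 1 →
      ∀ u ∈ W, Y u ∈ W) → W = ⊥ ∨ W = ⊤ := fun W hW =>
    hL.irr hss hP hU W hW
  have hn0 : n ≠ 0 := by
    intro h
    rw [h, rk_eq_zero.2 rfl] at hnd'
    omega
  have hsimple : ∀ D ∈ resL L U, D * D = 1 → resL L U ≤ Pool.Agent.W548.Odd.gn (resL L U) D := by
    intro D hD hD2
    refine simple_of_even hL.resL_br hsp hirr halt' hndl hndr hISO hSYM hSPAN hn hn2
      (show rk n % 4 = 2 by rw [hnd']; exact hd4) (fun p hp1 hp2 hp3 hp4 => ?_) hD hD2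
    exact absurd hp4 (hp p hp1 hp2 (by rw [← hnd']; exact hp3))
  exact exists_rank_one_small hL.resL_br hsp hirr halt' hndl hndr hsimple hn hn0
    (Or.inr hsmall)

end

end Pool.Agent.W2helper44.NR
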