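import Mathlib
import Pool.Agent.Y144.QF.Glue

/-!
# Trivial endomorphism ring: the only strongly irreducible subspace is the whole space
-/

set_option autoImplicit false
set_option linter.unusedSectionVars false

namespace Pool.Agent.W2helper44.NR

open Module Pool.Agent.H204R3.GP Pool.Agent.H204R3.SP Pool.Agent.W522.U Pool.Agent.W528.ZC
open Pool.Agent.W528.Tor (AltDual)
open Pool.Agent.Y144.QF

noncomputable section

section rank

variable {k : Type} [Field k] {ι : Type} [Fintype ι] [DecidableEq ι] {Ω : Type} [Field Ω]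
  [Algebra k Ω]

/-- The rank of a matrix over an extension field. -/
theorem rank_ext (A : Matrix ι ι k) : (A.map (algebraMap k Ω)).rank = A.rank := by
  classical
  obtain ⟨L, L', D, hD⟩ := Matrix.Pivot.exists_list_transvec_mul_mul_list_transvec_eq_diagonal A
  obtain ⟨P, hP⟩ : ∃ P, P = (L.map Matrix.TransvectionStruct.toMatrix).prod := ⟨_, rfl⟩
  obtain ⟨Q, hQ⟩ : ∃ Q, Q = (L'.map Matrix.TransvectionStruct.toMatrix).prod := ⟨_, rfl⟩
  rw [← hP, ← hQ] at hD
  have hPd : P.det = 1 := by rw [hP, Matrix.TransvectionStruct.det_toMatrix_prod]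
  have hQd : Q.det = 1 := by rw [hQ, Matrix.TransvectionStruct.det_toMatrix_prod]
  have hP' : (P.map (algebraMap k Ω)).det = 1 := by
    have h1 := (algebraMap k Ω).map_det P
    rw [RingHom.mapMatrix_apply, hPd, map_one] at h1
    exact h1.symm
  have hQ' : (Q.map (algebraMap k Ω)).det = 1 := by
    have h1 := (algebraMap k Ω).map_det Q
    rw [RingHom.mapMatrix_apply, hQd, map_one] at h1
    exact h1.symm
  have hD' : P.map (algebraMap k Ω) * A.map (algebraMap k Ω) * Q.map (algebraMap k Ω) =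
      Matrix.diagonal fun i => algebraMap k Ω (D i) := by
    rw [← Matrix.map_mul, ← Matrix.map_mul, hD, Matrix.diagonal_map (map_zero _)]
  have h1 : A.rank = (Matrix.diagonal D).rank := by
    rw [← hD, Matrix.rank_mul_eq_left_of_isUnit_det _ _ (by rw [hQd]; exact isUnit_one),
      Matrix.rank_mul_eq_right_of_isUnit_det _ _ (by rw [hPd]; exact isUnit_one)]
  have h2 : (A.map (algebraMap k Ω)).rank =
      (Matrix.diagonal fun i => algebraMap k Ω (D i)).rank := by
    rw [← hD', Matrix.rank_mul_eq_left_of_isUnit_det _ _ (by rw [hQ']; exact isUnit_one),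
      Matrix.rank_mul_eq_right_of_isUnit_det _ _ (by rw [hP']; exact isUnit_one)]
  rw [h1, h2, Matrix.rank_diagonal, Matrix.rank_diagonal]
  refine Fintype.card_congr (Equiv.subtypeEquivRight fun i => ?_)
  rw [Ne, Ne, map_eq_zero]

end rank

section known

variable {k : Type} [Field k] [CharZero k] {ι : Type} [Fintype ι] [DecidableEq ι] {Γ : Type}
  [Group Γ] {Ω : Type} [Field Ω] [Algebra k Ω] [CharZero Ω] [Algebra.IsAlgebraic k Ω]
  {ρ : Γ →* Matrix ι ι k} {χ : Γ →* k} {ψ : Matrix ι ι k} {E : Set (Matrix ι ι k)}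

/-- If all endomorphisms are scalars, the only strongly irreducible subspace is the whole space. -/
theorem si_top (h : Known Ω ρ χ ψ E) (hE : ∀ e ∈ E, ∃ q : k, e = q • (1 : Matrix ι ι k))
    {U : Submodule Ω (ι → Ω)} (hU : SI (repM ρ Ω) U) : U = ⊤ := by
  obtain ⟨hU0, ⟨Δ, hΔ, hUΔ⟩, -⟩ := hU
  obtain ⟨Q, hQ1, hQ2, hQ3⟩ := hasProj_repM ρ h.semi Δ hΔ U hUΔ
  have h1 := comm_ext (Ω := Ω) {M : Matrix ι ι k | ∃ s ∈ Δ, M = ρ s} (LinearMap.toMatrix' Q) (by
    rintro _ ⟨s, hs, rfl⟩
    apply Matrix.toLin'.injective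
    rw [Matrix.toLin'_mul, Matrix.toLin'_mul, Matrix.toLin'_toMatrix']
    refine LinearMap.ext fun v => ?_
    exact hQ3 s hs v)
  have h2 : LinearMap.toMatrix' Q ∈ Submodule.span Ω {(1 : Matrix ι ι Ω)} := by
    refine Submodule.span_le.2 ?_ h1
    rintro _ ⟨N, hN, rfl⟩
    have h3 : N ∈ Submodule.span k {(1 : Matrix ι ι k)} := by
      refine Submodule.span_le.2 ?_ (h.comm Δ hΔ N fun s hs => hN _ ⟨s, hs, rfl⟩)
      intro e he
      obtain ⟨q, rfl⟩ := hE e he
      exact Submodule.smul_mem _ _ (Submodule.mem_span_singleton_self _)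
    obtain ⟨a, rfl⟩ := Submodule.mem_span_singleton.1 h3
    refine Submodule.mem_span_singleton.2 ⟨algebraMap k Ω a, ?_⟩
    ext i j
    rw [Matrix.smul_apply, Matrix.map_apply, Matrix.smul_apply, smul_eq_mul, smul_eq_mul, map_mul,
      Matrix.one_apply, Matrix.one_apply]
    split_ifs
    · rw [map_one]
    · rw [map_zero]
  obtain ⟨c, hc⟩ := Submodule.mem_span_singleton.1 h2
  have hQ : ∀ v, Q v = c • v := by
    intro v
    have h3 : Matrix.toLin' (LinearMap.toMatrix' Q) v = Q v := by rw [Matrix.toLin'_toMatrix']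
    rw [← h3, ← hc, Matrix.toLin'_apply, Matrix.smul_mulVec, Matrix.one_mulVec]
  obtain ⟨u, hu, hu0⟩ := U.ne_bot_iff.1 hU0
  have h3 := hQ2 u hu
  rw [hQ] at h3
  have h4 : (c - 1) • u = 0 := by rw [sub_smul, one_smul, h3, sub_self]
  have h5 : c = 1 := sub_eq_zero.1 ((smul_eq_zero.1 h4).resolve_right hu0)
  refine eq_top_iff.2 fun v _ => ?_
  have h6 := hQ v
  rw [h5, one_smul] at h6
  rw [← h6]
  exact hQ1 v

/-- The whole space is self-dual with an alternating pairing. -/
theorem altDual_top (h : Known Ω ρ χ ψ E) (hψ : IsUnit ψ.det) (hψa : ψ.transpose = -ψ)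
    (hne : (⊤ : Submodule Ω (ι → Ω)) ≠ ⊥) :
    AltDual (repM ρ Ω) ((algebraMap k Ω).toMonoidHom.comp χ) ⊤ := by
  refine ⟨⊤, inferInstance, om Ω ψ, ?_, ?_, fun g _ u _ v _ => om_inv (Ω := Ω) h.form g u v⟩
  · obtain ⟨u, -, hu0⟩ := Submodule.ne_bot_iff _ |>.1 hne
    by_contra hcon
    push Not at hcon
    exact hu0 (om_nondeg (Ω := Ω) hψ u fun v => hcon u trivial v trivial)
  · intro u _
    have h2 : (ψ.map (algebraMap k Ω)).transpose = -(ψ.map (algebraMap k Ω)) := by
      rw [← Matrix.transpose_map, hψa]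
      ext i j
      simp
    have h1 : om Ω ψ u u = -om Ω ψ u u := by
      change bf _ _ _ = -bf _ _ _
      rw [bf_apply]
      nth_rewrite 1 [Matrix.dotProduct_mulVec]
      rw [← Matrix.mulVec_transpose, h2, dotProduct_comm, Matrix.neg_mulVec, dotProduct_neg]
    have h2 : (2 : Ω) * om Ω ψ u u = 0 := by linear_combination h1
    exact (mul_eq_zero.1 h2).resolve_left two_ne_zero

/-- The rank on the whole space. -/
theorem map_top_rank (ρ : Γ →* Matrix ι ι k) (γ : Γ) :
    finrank Ω ((⊤ : Submodule Ω (ι → Ω)).map (repM ρ Ω γ - 1)) = (ρ γ - 1).rank := by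
  have h1 : (repM ρ Ω γ - 1 : Module.End Ω (ι → Ω)) =
      ((ρ γ - 1).map (algebraMap k Ω)).mulVecLin := by
    have h2 : (ρ γ - 1).map (algebraMap k Ω) = (ρ γ).map (algebraMap k Ω) - 1 := by
      ext i j
      rw [Matrix.map_apply, Matrix.sub_apply, Matrix.sub_apply, Matrix.map_apply, map_sub,
        Matrix.one_apply, Matrix.one_apply]
      split_ifs
      · rw [map_one]
      · rw [map_zero]
    refine LinearMap.ext fun v => ?_
    rw [h2, Matrix.mulVecLin_apply, Matrix.sub_mulVec, Matrix.one_mulVec]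
    rfl
  rw [← rank_ext (Ω := Ω), Submodule.map_top, Matrix.rank, h1]

/-- The square of `γ - 1`. -/
theorem sq_rep (ρ : Γ →* Matrix ι ι k) (γ : Γ) (h : (ρ γ - 1) * (ρ γ - 1) = 0) :
    (repM ρ Ω γ - 1) * (repM ρ Ω γ - 1) = 0 := by
  have h1 : (repM ρ Ω γ - 1 : Module.End Ω (ι → Ω)) =
      Matrix.toLin' ((ρ γ - 1).map (algebraMap k Ω)) := by
    have h2 : (ρ γ - 1).map (algebraMap k Ω) = (ρ γ).map (algebraMap k Ω) - 1 := by
      ext i j
      rw [Matrix.map_apply, Matrix.sub_apply, Matrix.sub_apply, Matrix.map_apply, map_sub,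
        Matrix.one_apply, Matrix.one_apply]
      split_ifs
      · rw [map_one]
      · rw [map_zero]
    refine LinearMap.ext fun v => ?_
    rw [h2, Matrix.toLin'_apply, Matrix.sub_mulVec, Matrix.one_mulVec]
    rfl
  rw [h1]
  have h3 : Matrix.toLin' ((ρ γ - 1).map (algebraMap k Ω)) *
      Matrix.toLin' ((ρ γ - 1).map (algebraMap k Ω)) =
      Matrix.toLin' (((ρ γ - 1) * (ρ γ - 1)).map (algebraMap k Ω)) := by
    rw [Matrix.map_mul, Matrix.toLin'_mul]
    rfl
  rw [h3, h, Matrix.map_zero _ (map_zero _), map_zero]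

end known

end

end Pool.Agent.W2helper44.NR
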