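import Mathlib
import Pool.Agent.W2helper44.NR.Defs
import Pool.Agent.W2helper44.NR.Glob
import Pool.Agent.W2helper44.NR.Frob
import Pool.Agent.W2helper44.NR.Triv

/-!
# Places with toric rank 2 mod 4: assembly
-/

set_option autoImplicit false
set_option linter.unusedSectionVars false

namespace Pool.Agent.W2helper44.NR

open Module Pool.Agent.H204R3.SP Pool.Agent.H204R3.GP Pool.Agent.W522.U
open Pool.Agent.W528.Odd Pool.Agent.Y126.OT Pool.Agent.TH118.CR
open Pool.Agent.W528.Tor (AltDual)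
open Pool.Agent.Y126.JP Pool.Agent.Y144.QF Pool.Agent.R855.MT Pool.Agent.W528.ZC

noncomputable section

section general

variable {K : Type} [Field K] [CharZero K] [IsAlgClosed K] {X : Type} [AddCommGroup X] [Module K X]
  [FiniteDimensional K X] {Γ : Type} [Group Γ] {R : Representation K Γ X} {χ : Γ →* K}
  {ω : X →ₗ[K] X →ₗ[K] K} {L : Submodule K (Module.End K X)}

/-- The defects of local operators are ranks of elements of square zero of the Lie algebra. -/
theorem small_of (hL : IsLie ω R L)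
    (hgr : ∀ {n : ℕ} (b : Basis (Fin n) K X) (s : Fin n → K), IsGrading R χ b s →
      gradingOperator b s ∈ L) (hss : HasProj R) {U : Submodule K X} (hU : SI R U)
    (h : SmallDefects R χ U) (r : ℕ)
    (hr : ∀ n ∈ resL L U, n * n = 0 → r ∣ rk n) : 4 * r < finrank K U := by
  refine h r fun N₀ d hloc hN2 hd => ?_
  obtain ⟨Δ, hΔ, hUΔ⟩ := id hU.2.1
  have hN : N₀ ∈ L := Pool.Agent.R855.MT.QF.local_mem' hL hgr hloc
  have hst := hL.stable hss hU.2.1 hN
  obtain ⟨N, hNd⟩ : ∃ N : Module.End K U, N = N₀.restrict hst := ⟨_, rfl⟩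
  have hNx : ∀ u : U, ((N u : U) : X) = N₀ u := fun u => by rw [hNd]; rfl
  have hNN : N * N = 0 := by
    have h3 := sq_res hNx 0 (by rw [hN2, zero_smul])
    rw [h3, zero_smul]
  have hNm : N ∈ resL L U := ⟨_, hN, hNx⟩
  have hdef := Pool.Agent.R855.MT.QF.defect_local' hL hgr hss hU hNx hd
  obtain ⟨n, hn, hn2, hrk, -⟩ := defect_elt (resR R Δ U hUΔ) (sIrr_res hU Δ hΔ hUΔ) hL.resL_br
    (hL.resL_conj Δ hUΔ) hNm hNN hdef
  rw [← hrk]
  exact hr n hn hn2

/-- Defects which are `2` modulo `4`. -/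
theorem one_of_even_local (hISO : P_ISO) (hSYM : P_SYM) (hSPAN : P_SPAN) (hL : IsLie ω R L)
    (hgr : ∀ {n : ℕ} (b : Basis (Fin n) K X) (s : Fin n → K), IsGrading R χ b s →
      gradingOperator b s ∈ L) (hnd : ∀ u, (∀ v, ω u v = 0) → u = 0)
    (hωR : ∀ g u v, ω (R g u) (R g v) = χ g * ω u v) (hss : HasProj R) {U : Submodule K X}
    (hU : SI R U) (halt : AltDual R χ U) (hP : HodgeGen R L) {N₀ : Module.End K X}
    (hloc : IsLocal R χ N₀) (hN2 : N₀ * N₀ = 0) {d : ℕ}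
    (hd : Pool.Agent.R855.MT.IsDefect R χ U N₀ d) (hd4 : IsEvenPrime d (finrank K U))
    (hsmall : SmallDefects R χ U) : ∃ e ∈ L, e * e = 0 ∧ finrank K (U.map e) = 1 := by
  obtain ⟨Δ, hΔ, hUΔ⟩ := id hU.2.1
  have hN : N₀ ∈ L := Pool.Agent.R855.MT.QF.local_mem' hL hgr hloc
  have hst := hL.stable hss hU.2.1 hN
  obtain ⟨N, hNd⟩ : ∃ N : Module.End K U, N = N₀.restrict hst := ⟨_, rfl⟩
  have hNx : ∀ u : U, ((N u : U) : X) = N₀ u := fun u => by rw [hNd]; rfl
  have hNN : N * N = 0 := by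
    have h3 := sq_res hNx 0 (by rw [hN2, zero_smul])
    rw [h3, zero_smul]
  have hNm : N ∈ resL L U := ⟨_, hN, hNx⟩
  have hd0 : d ≠ 0 := by
    rintro rfl
    exact absurd hd4.1 (by decide)
  have hdef := Pool.Agent.R855.MT.QF.defect_local' hL hgr hss hU hNx hd
  have hN0 : U.map N₀ ≠ ⊥ := by
    intro h0
    have h1 : N = 0 := by
      refine LinearMap.ext fun u => Subtype.ext ?_
      have h2 : N₀ u ∈ U.map N₀ := Submodule.mem_map_of_mem u.2
      rw [h0, Submodule.mem_bot] at h2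
      rw [hNx, h2]
      rfl
    rw [h1] at hdef
    exact hd0 (defect_zero hdef)
  obtain ⟨n, hn, hn2, hrk, -⟩ := defect_elt (resR R Δ U hUΔ) (sIrr_res hU Δ hΔ hUΔ) hL.resL_br
    (hL.resL_conj Δ hUΔ) hNm hNN hdef
  exact one_of_even hL hnd hωR hss hU hISO hSYM hSPAN halt hP hN hN2 hN0 hn hn2 hrk hd4.1 hd4.2
    (small_of hL hgr hss hU hsmall)

end general

section known

variable {k : Type} [Field k] [CharZero k] {ι : Type} [Fintype ι] [DecidableEq ι] {Γ : Type}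
  [Group Γ] {Ω : Type} [Field Ω] [Algebra k Ω] [CharZero Ω] [Algebra.IsAlgebraic k Ω]
  {ρ : Γ →* Matrix ι ι k} {χ : Γ →* k} {ψ : Matrix ι ι k}
  [IsAlgClosed Ω] {E : Set (Matrix ι ι k)}

/-- From the conditions to rank one operators. -/
theorem hasOne_of_even (hISO : P_ISO) (hSYM : P_SYM) (hSPAN : P_SPAN) (hψ : IsUnit ψ.det)
    (h : Known Ω ρ χ ψ E)
    (H : HasEvenPlaces (repM ρ Ω) ((algebraMap k Ω).toMonoidHom.comp χ)) :
    HasOne (om Ω ψ) (repM ρ Ω) ((algebraMap k Ω).toMonoidHom.comp χ) := by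
  have hnd := om_nondeg (Ω := Ω) hψ
  have hω := om_inv (Ω := Ω) h.form
  have hL := isLie_HZ (R := repM ρ Ω) hnd hω
  have hss := hasProj_repM (Ω := Ω) ρ h.semi
  have hP := hodgeGen_HZ (hodge_iff ρ _ h.pink)
  intro U hU
  obtain ⟨halt, hc⟩ := H U hU
  refine ⟨halt, ?_⟩
  rcases hc with ⟨N, hloc, hN2, d, hd, hd2⟩ |
    ⟨γ, F, w, hγ, ⟨hFN, n, b, a, c, hc, hwc, hF, ha⟩, hFU, hr4, hp, hsmall⟩
  · rcases hd2 with hd2 | hd2 | ⟨hd4, hsm⟩
    · exact Pool.Agent.R855.MT.QF.one_of_local' hL (fun b s hbs =>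
        Pool.Agent.R855.MT.QF.grading_HZ hω b s hbs) hnd hω hss hU halt hP hloc hN2 hd (Or.inl hd2)
    · exact Pool.Agent.R855.MT.QF.one_of_local' hL (fun b s hbs =>
        Pool.Agent.R855.MT.QF.grading_HZ hω b s hbs) hnd hω hss hU halt hP hloc hN2 hd (Or.inr hd2)
    · exact one_of_even_local hISO hSYM hSPAN hL (fun b s hbs =>
        Pool.Agent.R855.MT.QF.grading_HZ hω b s hbs) hnd hω hss hU halt hP hloc hN2 hd hd4 hsm
  · have h0 : U.map (repM ρ Ω γ - 1) ≠ ⊥ := by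
      intro h1
      rw [h1, finrank_bot] at hr4
      exact absurd hr4 (by decide)
    refine one_of_even_frob hL hnd hω hss hU hISO hSYM hSPAN halt hP hγ h0 hFN hFU hc hwc hF
      (fun x hx => slope_HZ hω F b a c w hF hc hwc hx) ha hr4 hp ?_
    rcases hsmall with hs | ⟨t, ht, hpos, h8⟩
    · exact Or.inl (small_of hL (fun b s hbs =>
        Pool.Agent.R855.MT.QF.grading_HZ hω b s hbs) hss hU hs)
    · refine Or.inr ⟨t, ht, ?_, h8⟩
      intro hbot
      unfold mult at hpos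
      rw [hbot, finrank_bot] at hpos
      exact lt_irrefl _ hpos

/-- The numeric condition for one toric rank, if all endomorphisms are scalars. -/
theorem even_of_scalar (h : Known Ω ρ χ ψ E) (hψ : IsUnit ψ.det) (hψa : ψ.transpose = -ψ)
    (hE : ∀ e ∈ E, ∃ q : k, e = q • (1 : Matrix ι ι k)) {t : ℕ}
    (ht : IsEvenPrime t (Fintype.card ι)) (h4 : 4 * t < Fintype.card ι) {γ : Γ}
    (hγ : (ρ γ - 1) * (ρ γ - 1) = 0) (hrk : (ρ γ - 1).rank = t) :
    HasEvenPlaces (repM ρ Ω) ((algebraMap k Ω).toMonoidHom.comp χ) := by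
  intro U hU
  have hU0 := hU.1
  obtain rfl := si_top h hE hU
  refine ⟨altDual_top h hψ hψa hU0, Or.inl ⟨repM ρ Ω γ - 1, ?_, sq_rep ρ γ hγ, t, Or.inl ?_,
    Or.inr (Or.inr ⟨?_, ?_⟩)⟩⟩
  · exact IsLocal.inertia γ (sq_rep ρ γ hγ)
  · rw [map_top_rank, hrk]
  · rw [finrank_top, finrank_fintype_fun_eq_card]
    exact ht
  · intro r hr
    rw [finrank_top, finrank_fintype_fun_eq_card]
    have h1 : r ∣ t := hr _ t (IsLocal.inertia γ (sq_rep ρ γ hγ)) (sq_rep ρ γ hγ)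
      (Or.inl (by rw [map_top_rank, hrk]))
    have h2 : 0 < t := by
      have := ht.1
      omega
    have h3 := Nat.le_of_dvd h2 h1
    omega

end known

end

end Pool.Agent.W2helper44.NR
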