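import Mathlib
import Pool.Agent.W2helper44.NR.Stm1

/-!
# Project NR: piece SPAN
-/

set_option autoImplicit false

namespace Pool.Agent.W2helper44.NR

open Module LinearMap Pool.Agent.W548.Odd Pool.Agent.Y91.JP Pool.Agent.Y126.JP

/-- Minimal stable subspaces. -/
theorem exists_min_stable {K V : Type} [Field K] [AddCommGroup V] [Module K V]
    [FiniteDimensional K V] (J : Submodule K (End K V)) :
    ∀ (n : ℕ) (S : Submodule K V), finrank K S ≤ n → S ≠ ⊥ → (∀ y ∈ J, ∀ s ∈ S, y s ∈ S) →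
      ∃ S' : Submodule K V, S' ≠ ⊥ ∧ (∀ y ∈ J, ∀ s ∈ S', y s ∈ S') ∧
        ∀ T ≤ S', (∀ y ∈ J, ∀ s ∈ T, y s ∈ T) → T = ⊥ ∨ T = S' := by
  intro n
  induction n with
  | zero =>
    intro S hS h0
    exact absurd (Submodule.finrank_eq_zero.1 (Nat.le_zero.1 hS)) h0
  | succ n ih =>
    intro S hS h0 hst
    by_cases h : ∀ T ≤ S, (∀ y ∈ J, ∀ s ∈ T, y s ∈ T) → T = ⊥ ∨ T = S
    · exact ⟨S, h0, hst, h⟩
    · push Not at h
      obtain ⟨T, hTS, hT, hT0, hTne⟩ := h
      have h1 := Submodule.finrank_lt_finrank_of_lt (lt_of_le_of_ne hTS hTne)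
      exact ih T (by omega) hT0 hT

theorem p_SPAN : P_SPAN := by
  intro K V _ _ _ _ _ _ ω 𝔥 hbr hsp hirr hndl hndr E hE hE2 hne
  have h := setup hbr hsp hirr hndl hndr
  have hs := scal hirr
  have hI := gn_idl h hE
  obtain ⟨v, hv⟩ := hne
  obtain ⟨S, hS0, hSst, hSmin⟩ := exists_min_stable (cen 𝔥 (gn 𝔥 E)) _ ⊤ le_rfl
    (fun h0 => hv (by
      have h1 : v ∈ (⊤ : Submodule K V) := trivial
      rw [h0] at h1
      exact (Submodule.mem_bot K).1 h1)) (fun y _ s _ => trivial)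
  refine ⟨S, hS0, hSst, hSmin, ?_⟩
  obtain ⟨T, hT⟩ : ∃ T : Submodule K V, T = Submodule.span K
    {w : V | ∃ x : End K V, (∀ y ∈ cen 𝔥 (gn 𝔥 E), x * y = y * x) ∧ ∃ s ∈ S, w = x s} := ⟨_, rfl⟩
  rw [← hT]
  -- stability under the commutant
  have h1 : ∀ z : End K V, (∀ y ∈ cen 𝔥 (gn 𝔥 E), z * y = y * z) → ∀ w ∈ T, z w ∈ T := by
    intro z hz w hw
    rw [hT] at hw
    induction hw using Submodule.span_induction with
    | mem w hw =>
      obtain ⟨x, hx, s, hs', rfl⟩ := hw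
      rw [hT]
      refine Submodule.subset_span ⟨z * x, fun y hy => ?_, s, hs', rfl⟩
      rw [mul_assoc, hx y hy, ← mul_assoc, hz y hy, mul_assoc]
    | zero => rw [map_zero]; exact T.zero_mem
    | add a b _ _ ha hb => rw [map_add]; exact T.add_mem ha hb
    | smul c a _ ha => rw [map_smul]; exact T.smul_mem _ ha
  -- stability under `J`
  have h2 : ∀ z ∈ cen 𝔥 (gn 𝔥 E), ∀ w ∈ T, z w ∈ T := by
    intro z hz w hw
    rw [hT] at hw
    induction hw using Submodule.span_induction with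
    | mem w hw =>
      obtain ⟨x, hx, s, hs', rfl⟩ := hw
      rw [hT]
      refine Submodule.subset_span ⟨x, hx, z s, hSst z hz s hs', ?_⟩
      exact (LinearMap.congr_fun (hx z hz) s).symm
    | zero => rw [map_zero]; exact T.zero_mem
    | add a b _ _ ha hb => rw [map_add]; exact T.add_mem ha hb
    | smul c a _ ha => rw [map_smul]; exact T.smul_mem _ ha
  have h3 := hirr T fun X hX hXX u hu => by
    have hD : (2 : K) • X ∈ 𝔥 := 𝔥.smul_mem _ hX
    have hD2 : ((2 : K) • X) * ((2 : K) • X) = 1 := by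
      rw [smul_mul_assoc, mul_smul_comm, hXX, smul_smul, smul_smul]
      norm_num
    have h4 : ((2 : K) • X) u ∈ T := by
      rcases invol_dich h hs hI hD hD2 with h5 | h5
      · exact h1 _ (fun y hy => (hy.2 _ h5).symm) u hu
      · exact h2 _ h5 u hu
    have h6 : X u = (1 / 2 : K) • ((2 : K) • X) u := by
      rw [LinearMap.smul_apply, smul_smul]
      norm_num
    rw [h6]
    exact T.smul_mem _ h4
  have h4 : S ≤ T := by
    intro s hs'
    rw [hT]
    exact Submodule.subset_span ⟨1, fun y _ => by rw [one_mul, mul_one], s, hs', rfl⟩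
  rcases h3 with h3 | h3
  · exact absurd (eq_bot_iff.2 (h4.trans h3.le)) hS0
  · intro w
    rw [h3]
    trivial

end Pool.Agent.W2helper44.NR
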